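import Pool.Agent.Q167.CTd

/-!
# Twin pairs between consecutive cubes in Cramér's model with limited independence

In Cramér's random model every integer `n ≥ 3` belongs to the random set `A` with probability
`1 / log n`, independently. In the model with independence of order `κ` only those sets `T` of
events have to be independent whose number of elements is at most `κ n` for all `n ∈ T`.

Let `T(n)` be the number of pairs `(p, p + 2)` with `p, p + 2 ∈ A`, `n ^ 3 < p`,
`p + 2 < (n + 1) ^ 3`.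

(1) If `κ n ≥ 2 m k` for large `n`, then in EVERY such model almost surely the asymptotic formula
    `#{n ∈ (x, x + y] : n + h ⊆ A} ~ y / (log x) ^ |h|` holds for all sets `h` of at most `k`
    integers, uniformly for `x ^ θ ≤ y ≤ x`, for all `θ > 1 / (m + 1)`.
(2) There is a model with independence of order 3 in which almost surely `T(n) = 0` for all
    large `n`.
(3) For nondecreasing `κ` the following are equivalent: `κ n ≥ 4` for large `n`; in every model
    almost surely `T(n) ≥ 1` for infinitely many `n`; almost surely `T(n) ≥ 2` for all large `n`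
    (Q1 up to finitely many `n`); almost surely `T(n) → ∞` (Q2); almost surely
    `T(n) ~ n ^ 2 / (3 (log n) ^ 2)`.
(4) For nondecreasing `κ`: all patterns satisfy the formula of (1) for all `θ > 0` almost surely
    in every model if and only if `κ n` tends to infinity.
-/

set_option autoImplicit false

namespace Pool.Agent.Results.MP_d610d0_nt.CubeThreshold

open MeasureTheory Filter Topology

/-- Cramér's model with independence of order `κ`: `E n` is the event that the integer `n` belongs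
to the random set. For every finite set `T` of integers `n ≥ 3` with at most `κ n` elements for
all `n ∈ T`, the probability that `T` is contained in the random set is `∏ 1 / log n`. -/
structure CramerModel {Ω : Type} [MeasurableSpace Ω] (P : Measure Ω) (κ : ℕ → ℕ)
    (E : ℕ → Set Ω) : Prop where
  meas : ∀ n, MeasurableSet (E n)
  indep : ∀ T : Finset ℕ, (∀ n ∈ T, 3 ≤ n ∧ T.card ≤ κ n) →
    P (⋂ n ∈ T, E n) = ENNReal.ofReal (∏ n ∈ T, 1 / Real.log n)

/-- `#{n ∈ (x, x + y] : n + h ⊆ A} ~ y / (log x) ^ |h|` as `x → ∞`, uniformly for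
`x ^ θ ≤ y ≤ x` -/
def ShortIntervals {Ω : Type} (E : ℕ → Set Ω) (ω : Ω) (h : Finset ℕ) (θ : ℝ) : Prop :=
  ∀ ε : ℝ, 0 < ε → ∀ᶠ x : ℝ in atTop, ∀ y : ℝ, x ^ θ ≤ y → y ≤ x →
    |(({n : ℕ | x < n ∧ (n : ℝ) ≤ x + y ∧ ∀ a ∈ h, ω ∈ E (n + a)}.ncard : ℕ) : ℝ) *
      Real.log x ^ h.card / y - 1| ≤ ε

/-- the number of twin pairs of the random set strictly between `n ^ 3` and `(n + 1) ^ 3` -/
noncomputable def twins {Ω : Type} (E : ℕ → Set Ω) (ω : Ω) (n : ℕ) : ℕ :=
  {p : ℕ | ω ∈ E p ∧ ω ∈ E (p + 2) ∧ n ^ 3 < p ∧ p + 2 < (n + 1) ^ 3}.ncard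

/-- in every model with independence of order `κ` almost surely the random set has property `Q` -/
def AlwaysAS (κ : ℕ → ℕ) (Q : ∀ {Ω : Type}, (ℕ → Set Ω) → Ω → Prop) : Prop :=
  ∀ (Ω : Type) (_ : MeasurableSpace Ω) (P : Measure Ω) (_ : IsProbabilityMeasure P)
    (E : ℕ → Set Ω), CramerModel P κ E → ∀ᵐ ω ∂P, Q E ω

theorem result :
    (∀ k m : ℕ, 1 ≤ m → ∀ κ : ℕ → ℕ, (∀ᶠ n : ℕ in atTop, 2 * m * k ≤ κ n) →
      AlwaysAS κ fun E ω => ∀ h : Finset ℕ, h.card ≤ k → ∀ θ : ℝ, 1 / ((m : ℝ) + 1) < θ →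
        ShortIntervals E ω h θ) ∧
    (∃ (Ω : Type) (_ : MeasurableSpace Ω) (P : Measure Ω) (_ : IsProbabilityMeasure P)
      (E : ℕ → Set Ω), CramerModel P (fun _ => 3) E ∧
      ∀ᵐ ω ∂P, ∀ᶠ n in atTop, twins E ω n = 0) ∧
    (∀ κ : ℕ → ℕ, Monotone κ → List.TFAE [
      ∀ᶠ n : ℕ in atTop, 4 ≤ κ n,
      AlwaysAS κ fun E ω => ∃ᶠ n in atTop, 1 ≤ twins E ω n,
      AlwaysAS κ fun E ω => ∀ᶠ n in atTop, 2 ≤ twins E ω n,
      AlwaysAS κ fun E ω => Tendsto (twins E ω) atTop atTop,
      AlwaysAS κ fun E ω => Tendsto (fun n : ℕ => (twins E ω n : ℝ) *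
        (3 * Real.log n ^ 2 / (n : ℝ) ^ 2)) atTop (𝓝 1)]) ∧
    (∀ κ : ℕ → ℕ, Monotone κ → (Tendsto κ atTop atTop ↔
      AlwaysAS κ fun E ω => ∀ h : Finset ℕ, ∀ θ : ℝ, 0 < θ → ShortIntervals E ω h θ)) := by
  refine ⟨fun k m hm κ hκ Ω mΩ P hP E hM => ?_, ?_, fun κ hmono => ?_, fun κ hmono => ?_⟩
  · exact Q167.CT.short_all ⟨hM.meas, hM.indep⟩ (by omega) hκ
  · obtain ⟨Ω, mΩ, P, hP, E, hM, hE⟩ := Q167.CT.no_cubes
    exact ⟨Ω, mΩ, P, hP, E, ⟨hM.meas, hM.indep⟩, hE⟩
  · tfae_have 1 → 5 := by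
      intro h Ω mΩ P hP E hM
      exact Q167.CT.cubes_four ⟨hM.meas, hM.indep⟩ h
    tfae_have 5 → 4 := by
      intro h Ω mΩ P hP E hM
      filter_upwards [h Ω mΩ P hP E hM] with ω hω
      exact Q167.CT.TT_atTop hω
    tfae_have 4 → 3 := by
      intro h Ω mΩ P hP E hM
      filter_upwards [h Ω mΩ P hP E hM] with ω hω
      exact hω.eventually_ge_atTop 2
    tfae_have 3 → 2 := by
      intro h Ω mΩ P hP E hM
      filter_upwards [h Ω mΩ P hP E hM] with ω hω
      refine Eventually.frequently ?_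
      filter_upwards [hω] with n hn
      omega
    tfae_have 2 → 1 := by
      intro h
      exact Q167.CT.of_frequently hmono fun Ω mΩ P hP E hM =>
        h Ω mΩ P hP E ⟨hM.meas, hM.indep⟩
    tfae_finish
  · constructor
    · intro h Ω mΩ P hP E hM
      have h1 : ∀ k m : ℕ, ∀ᵐ ω ∂P, ∀ h : Finset ℕ, h.card ≤ k → ∀ θ : ℝ,
          1 / (((m + 1 : ℕ) : ℝ) + 1) < θ → Q167.CT.ShortFormula E ω h θ := fun k m =>
        Q167.CT.short_all ⟨hM.meas, hM.indep⟩ (by omega)
          (h.eventually_ge_atTop (2 * (m + 1) * k))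
      filter_upwards [ae_all_iff.2 fun k => ae_all_iff.2 (h1 k)] with ω hω s θ hθ
      obtain ⟨m, hm⟩ := exists_nat_one_div_lt hθ
      refine hω s.card m s le_rfl θ (lt_of_le_of_lt ?_ hm)
      apply one_div_le_one_div_of_le (by positivity)
      push_cast
      linarith
    · intro h
      rw [tendsto_atTop]
      intro b
      have h1 := (Q198.CI.tuples_iff hmono (k := b + 1) (by omega)).1.2 (by
        intro Ω mΩ P hP E hM
        filter_upwards [h Ω mΩ P hP E ⟨hM.meas, hM.indep⟩] with ω hω s _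
        exact Q167.CT.infinite_of_short (hω s 1 one_pos))
      filter_upwards [h1] with n hn
      omega

end Pool.Agent.Results.MP_d610d0_nt.CubeThreshold
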