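import Pool.Agent.Q257.PW.B

/-!
# Pairs of almost primes and twin primes between consecutive powers: every window, narrow progressions
-/

set_option autoImplicit false

namespace Pool.Agent.Results.MP_d610d0_nt.NarrowProgressions

open Finset
open Pool.Agent.Q257.PW (Adm Gd Pat XX)

/-- the lower members `p` of the pairs of twin primes with `n ^ k < p < p + 2 < (n + 1) ^ k`; for `k = 3` their number is `T(n)` -/
def Twins (k n : ℕ) : Finset ℕ :=
  (Ioo (n ^ k) ((n + 1) ^ k)).filter (fun p => p + 2 < (n + 1) ^ k ∧ p.Prime ∧ (p + 2).Prime)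

open Classical in
/-- the integers `p` with `n ^ k < p < p + 2 < (n + 1) ^ k` such that all prime factors of `p` and of `p + 2` are larger than
`(2 ^ k n ^ (k - 1)) ^ (1/t)` -/
noncomputable def Good (t k n : ℕ) : Finset ℕ :=
  (Ioo (n ^ k) ((n + 1) ^ k)).filter (fun p => p + 2 < (n + 1) ^ k ∧
    ∀ q : ℕ, q.Prime → q ∣ p ∨ q ∣ p + 2 → ((2 ^ k * n ^ (k - 1) : ℕ) : ℝ) ^ (1 / (t : ℝ)) < q)

/-- the pattern -/
def h : Fin 2 → ℕ := ![0, 2]

theorem h_inj : Function.Injective h := by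
  intro i j hij
  fin_cases i <;> fin_cases j <;> simp [h] at hij ⊢

theorem h_adm : Adm h := by
  intro p hp
  by_cases h3 : p = 3
  · subst h3
    refine ⟨2, fun i => ?_⟩
    fin_cases i <;> simp [h]
  · refine ⟨1, fun i => ?_⟩
    fin_cases i
    · simp only [h, Matrix.cons_val_zero, Fin.zero_eta]
      intro hd
      exact hp.one_lt.ne' (Nat.dvd_one.1 hd)
    · simp only [h, Fin.mk_one, Matrix.cons_val_one, Matrix.cons_val_fin_one]
      intro hd
      exact h3 ((Nat.prime_dvd_prime_iff_eq hp Nat.prime_three).1 hd)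

theorem Twins_eq (m n : ℕ) : Twins (m + 1) n = Pat m n h := by
  unfold Twins Pat
  apply filter_congr
  intro p hp
  rw [mem_Ioo] at hp
  rw [Fin.forall_fin_two]
  simp only [h, Matrix.cons_val_zero, Matrix.cons_val_one, Matrix.cons_val_fin_one, add_zero]
  tauto

theorem Good_eq (t m n : ℕ) : Good t (m + 1) n = Gd m t n h := by
  classical
  ext p
  unfold Good Gd XX
  rw [mem_filter, mem_filter, mem_Ioo]
  refine and_congr_right fun hp => ?_
  rw [Fin.forall_fin_two]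
  simp only [h, Matrix.cons_val_zero, Matrix.cons_val_one, Matrix.cons_val_fin_one, add_zero, Nat.add_sub_cancel]
  constructor
  · rintro ⟨h1, h2⟩
    exact ⟨⟨hp.2, fun q hq hqd => h2 q hq (Or.inl hqd)⟩, h1, fun q hq hqd => h2 q hq (Or.inr hqd)⟩
  · rintro ⟨⟨_, h2⟩, h1, h3⟩
    exact ⟨h1, fun q hq hqd => hqd.elim (h2 q hq) (h3 q hq)⟩

/-- **Twin primes and pairs of almost primes between consecutive powers.** There is `t ≥ 1` such that for every `k ≥ 2` (`k = 3` in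
the question):

(1) there are `c, C > 0` such that for ALL large `n` the set `Good` has between `c n ^ (k-1) / log ^ 2 n` and
`C n ^ (k-1) / log ^ 2 n` elements, and it contains all pairs of twin primes of the window;

(2) for all `L` and `δ > 0` there is `D` such that for all large `n` every subset of `Good` with at least `δ n ^ (k-1) / log ^ 2 n`
elements contains an arithmetic progression of length `L` with difference at most `log ^ D n`;

(3) in particular for all large `n` either there are fewer than `δ n ^ (k-1) / log ^ 2 n` pairs of twin primes between `n ^ k` and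
`(n + 1) ^ k`, or `L` of them are in arithmetic progression with difference at most `log ^ D n`;

(4) for all `L` and `q` there is `D` such that for all large `n` and every colouring of the integers in `q` colours there are
`s, s' ≤ 2 t` and a progression of length `L` of one colour, with difference at most `log ^ D n`, in `Good`, such that all its
members `p` have exactly `s` and all the `p + 2` have exactly `s'` prime factors. -/
theorem result : ∃ t : ℕ, 1 ≤ t ∧ ∀ k : ℕ, 2 ≤ k →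
    (∃ c C : ℝ, 0 < c ∧ 0 < C ∧ ∃ N : ℕ, ∀ n : ℕ, N ≤ n →
      c * ((n : ℝ) ^ (k - 1) / Real.log n ^ 2) ≤ ((Good t k n).card : ℝ) ∧
      ((Good t k n).card : ℝ) ≤ C * ((n : ℝ) ^ (k - 1) / Real.log n ^ 2) ∧ Twins k n ⊆ Good t k n) ∧
    (∀ (L : ℕ) (δ : ℝ), 0 < δ → ∃ D N : ℕ, ∀ n : ℕ, N ≤ n → ∀ S ⊆ Good t k n,
      δ * ((n : ℝ) ^ (k - 1) / Real.log n ^ 2) ≤ S.card →
        ∃ p d : ℕ, 1 ≤ d ∧ (d : ℝ) ≤ Real.log n ^ D ∧ ∀ j < L, p + j * d ∈ S) ∧
    (∀ (L : ℕ) (δ : ℝ), 0 < δ → ∃ D N : ℕ, ∀ n : ℕ, N ≤ n →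
      ((Twins k n).card : ℝ) < δ * ((n : ℝ) ^ (k - 1) / Real.log n ^ 2) ∨
        ∃ p d : ℕ, 1 ≤ d ∧ (d : ℝ) ≤ Real.log n ^ D ∧ ∀ j < L, p + j * d ∈ Twins k n) ∧
    (∀ L q : ℕ, 1 ≤ q → ∃ D N : ℕ, ∀ n : ℕ, N ≤ n → ∀ col : ℕ → Fin q,
      ∃ (s s' : ℕ) (κ : Fin q) (p d : ℕ), (1 ≤ s ∧ s ≤ 2 * t) ∧ (1 ≤ s' ∧ s' ≤ 2 * t) ∧ 1 ≤ d ∧ (d : ℝ) ≤ Real.log n ^ D ∧
        ∀ j < L, p + j * d ∈ Good t k n ∧ col (p + j * d) = κ ∧ (p + j * d).primeFactorsList.length = s ∧
          (p + j * d + 2).primeFactorsList.length = s') := by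
  obtain ⟨t, ht, H⟩ := Pool.Agent.Q257.PW.main 2 (by norm_num)
  refine ⟨t, ht, fun k hk => ?_⟩
  obtain ⟨m, rfl⟩ : ∃ m, k = m + 1 := ⟨k - 1, by omega⟩
  obtain ⟨⟨c, C, hc, hC, N₁, h1⟩, h2, h3⟩ := H m (by omega) h h_inj h_adm
  rw [Nat.add_sub_cancel]
  refine ⟨⟨c, C, hc, hC, N₁, fun n hn => ?_⟩, fun L δ hδ => ?_, fun L δ hδ => ?_, fun L q hq => ?_⟩
  · rw [Good_eq, Twins_eq]
    exact h1 n hn
  · obtain ⟨D, N, h4⟩ := h2 L δ hδ
    refine ⟨D, N, fun n hn S hS hSc => ?_⟩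
    rw [Good_eq] at hS
    exact h4 n hn S hS hSc
  · obtain ⟨D, N, h4⟩ := h2 L δ hδ
    refine ⟨D, N + N₁, fun n hn => ?_⟩
    by_cases hT : ((Twins (m + 1) n).card : ℝ) < δ * ((n : ℝ) ^ m / Real.log n ^ 2)
    · exact Or.inl hT
    · right
      rw [Twins_eq] at hT ⊢
      exact h4 n (by omega) _ (h1 n (by omega)).2.2 (not_lt.1 hT)
  · obtain ⟨D, N, h4⟩ := h3 L q hq
    refine ⟨D, N, fun n hn col => ?_⟩
    obtain ⟨s, κ, p, d, g1, g2, g3, g4⟩ := h4 n hn col
    refine ⟨s 0, s 1, κ, p, d, g1 0, g1 1, g2, g3, fun j hj => ?_⟩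
    obtain ⟨g5, g6, g7⟩ := g4 j hj
    rw [Good_eq]
    exact ⟨g5, g6, g7 0, g7 1⟩

end Pool.Agent.Results.MP_d610d0_nt.NarrowProgressions
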