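import Pool.Agent.Q106.MD.PowAll

/-!
# MP_d610d0_nt: all constellations between consecutive powers in the sieved models of the primes

The sieved model of level `Q`: a random set `A` which contains the integers `n` coprime to `Q` independently with
probability `(Q / φ(Q)) / log n` (at most `1`), and no others (`IsModel μ (level Q) A`; `Q = 1` is Cramér's model).
Almost surely the following holds for all powers `k ≥ 2` and all finite families of constellations and parts of the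
windows `(n^k, (n+1)^k)`. The vectors of the deviations of the numbers of constellations from the predictions (with the
singular series of level `Q`), divided by the square roots of `2 · prediction · log n`, approach the closed unit ball
and are dense in it, and the number of the `n ≤ x` for which the vector is near `d` is `x^(1 - |d|^2 + o(1))`.
-/

set_option autoImplicit false

namespace Pool.Agent.Results.MP_d610d0_nt.UnitBallOfDeviations

open Finset MeasureTheory ProbabilityTheory Filter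
open scoped Topology
open Pool.Agent.Q120.GM (IsModel level sing)

open Classical in
/-- The part `[u, v)` of the window: the `m` with `n^k < m < (n+1)^k` and
`n^k + u ((n+1)^k - n^k) ≤ m < n^k + v ((n+1)^k - n^k)`. -/
noncomputable def cell (k n : ℕ) (u v : ℚ) : Finset ℕ :=
  (Ioo (n ^ k) ((n + 1) ^ k)).filter (fun m : ℕ =>
    (n : ℝ) ^ k + u * (((n : ℝ) + 1) ^ k - (n : ℝ) ^ k) ≤ m ∧ (m : ℝ) < (n : ℝ) ^ k + v * (((n : ℝ) + 1) ^ k - (n : ℝ) ^ k))

/-- The number of the `m` in the part such that all `m + h`, `h ∈ H`, are elements of `A` below `(n+1)^k`. -/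
noncomputable def count (A : Set ℕ) (k n : ℕ) (H : Finset ℕ) (u v : ℚ) : ℝ :=
  ({m : ℕ | m ∈ cell k n u v ∧ ∀ h ∈ H, m + h ∈ A ∧ m + h < (n + 1) ^ k}.ncard : ℝ)

/-- The predicted number: the singular series of level `Q` times the sum of `1 / (log m)^|H|`. -/
noncomputable def predicted (Q k n : ℕ) (H : Finset ℕ) (u v : ℚ) : ℝ :=
  sing Q H * ∑ m ∈ cell k n u v, 1 / Real.log m ^ H.card

/-- The normalized deviation. -/
noncomputable def deviation (A : Set ℕ) (Q k n : ℕ) (H : Finset ℕ) (u v : ℚ) : ℝ :=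
  (count A k n H u v - predicted Q k n H u v) / Real.sqrt (2 * predicted Q k n H u v * Real.log n)

/-- A family of constellations `H i` (they contain `0`, and their singular series are positive) and parts
`[u i, v i)` of the windows, such that different members have different constellations or disjoint parts. -/
def Family (Q : ℕ) {r : ℕ} (H : Fin r → Finset ℕ) (u v : Fin r → ℚ) : Prop :=
  (∀ i, 0 ∈ H i ∧ 0 < sing Q (H i) ∧ 0 ≤ u i ∧ u i < v i ∧ v i ≤ 1) ∧
    ∀ i j, i ≠ j → H i ≠ H j ∨ v i ≤ u j ∨ v j ≤ u i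

theorem cell_eq {k n : ℕ} (hk : 1 ≤ k) {u v : ℚ} (hv : v ≤ 1) :
    cell k n u v = Ico (Pool.Agent.Q106.MD.lo k n u) (Pool.Agent.Q106.MD.hi k n v) := by
  classical
  ext m
  have h1 := Pool.Agent.Q106.MD.hi_le (n := n) hk hv
  unfold cell
  rw [mem_filter, mem_Ioo, mem_Ico]
  have h2 : Pool.Agent.Q106.MD.lo k n u ≤ m ↔ n ^ k < m ∧ (n : ℝ) ^ k + u * (((n : ℝ) + 1) ^ k - (n : ℝ) ^ k) ≤ m := by
    unfold Pool.Agent.Q106.MD.lo Pool.Agent.Q106.MD.len
    rw [max_le_iff, Nat.ceil_le, Nat.succ_le_iff]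
  have h3 : m < Pool.Agent.Q106.MD.hi k n v ↔ (m : ℝ) < (n : ℝ) ^ k + v * (((n : ℝ) + 1) ^ k - (n : ℝ) ^ k) := by
    unfold Pool.Agent.Q106.MD.hi Pool.Agent.Q106.MD.len
    rw [Nat.lt_ceil]
  constructor
  · rintro ⟨⟨h4, _⟩, h6, h7⟩
    exact ⟨h2.2 ⟨h4, h6⟩, h3.2 h7⟩
  · rintro ⟨h4, h5⟩
    have h6 := h2.1 h4
    exact ⟨⟨h6.1, by omega⟩, h6.2, h3.1 h5⟩

theorem count_eq {Ω : Type} (A : Ω → Set ℕ) {k n : ℕ} (hk : 1 ≤ k) {r : ℕ} (H : Fin r → Finset ℕ) (u v : Fin r → ℚ)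
    (i : Fin r) (h0 : 0 ∈ H i) (hv : v i ≤ 1) (ω : Ω) :
    count (A ω) k n (H i) (u i) (v i) =
      Pool.Agent.Q106.UR.nm A (Pool.Agent.Q106.MD.Jp k H u v n i) (fun m => Pool.Agent.Q120.GM.tl m (H i)) ω := by
  unfold count
  rw [Pool.Agent.Q106.UR.nm_card]
  congr 1
  rw [← Set.ncard_coe_finset]
  congr 1
  ext m
  rw [Finset.mem_coe, Pool.Agent.Q106.UR.mem_oc]
  unfold Pool.Agent.Q106.MD.Jp
  rw [mem_filter, ← cell_eq hk hv]
  constructor
  · rintro ⟨h1, h2⟩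
    refine ⟨⟨h1, ?_⟩, ?_⟩
    · obtain ⟨h, hh, he⟩ := Finset.exists_mem_eq_sup (H i) ⟨0, h0⟩ id
      rw [he]
      exact (h2 h hh).2
    · intro b hb
      obtain ⟨h, hh, rfl⟩ := Pool.Agent.Q120.GM.mem_tl.1 hb
      exact (h2 h hh).1
  · rintro ⟨⟨h1, h2⟩, h3⟩
    refine ⟨h1, fun h hh => ⟨h3 _ (Pool.Agent.Q120.GM.mem_tl.2 ⟨h, hh, rfl⟩), ?_⟩⟩
    have h4 : h ≤ (H i).sup id := Finset.le_sup (f := id) hh
    omega

theorem deviation_eq {Ω : Type} (A : Ω → Set ℕ) {Q k : ℕ} (hk : 1 ≤ k) {r : ℕ} (H : Fin r → Finset ℕ) (u v : Fin r → ℚ)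
    (hF : Family Q H u v) (n : ℕ) (i : Fin r) (ω : Ω) :
    deviation (A ω) Q k n (H i) (u i) (v i) = Pool.Agent.Q106.MD.dvp Q A k H u v n i ω := by
  have h1 := hF.1 i
  unfold deviation Pool.Agent.Q106.MD.dvp Pool.Agent.Q106.MD.dev
  have h2 : predicted Q k n (H i) (u i) (v i) = sing Q (H i) * Pool.Agent.Q106.MD.li (H i).card
      (Pool.Agent.Q106.MD.lo k n (u i)) (Pool.Agent.Q106.MD.hi k n (v i)) := by
    unfold predicted Pool.Agent.Q106.MD.li
    rw [cell_eq hk h1.2.2.2.2]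
  rw [count_eq A hk H u v i h1.1 h1.2.2.2.2, h2]

/-- **The vector law for constellations between consecutive powers.** Almost surely, for all `k ≥ 2` and all families of
constellations and parts of the windows: (1) the vectors of the deviations approach the closed unit ball, (2) all points
of the closed unit ball are limit points, (3) the number of the `n ≤ x` for which the vector is near `d`, `|d| < 1`, is
`x^(1 - |d|^2 + o(1))`. -/
theorem result {Ω : Type} [MeasurableSpace Ω] {μ : Measure Ω} [IsProbabilityMeasure μ] {A : Ω → Set ℕ} {Q : ℕ}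
    (hQ : 1 ≤ Q) (hA : IsModel μ (level Q) A) :
    ∀ᵐ ω ∂μ, ∀ k, 2 ≤ k → ∀ (r : ℕ) (H : Fin r → Finset ℕ) (u v : Fin r → ℚ), Family Q H u v →
      (∀ ε > 0, ∀ᶠ n in atTop, ∑ i, deviation (A ω) Q k n (H i) (u i) (v i) ^ 2 ≤ 1 + ε) ∧
      (∀ d : Fin r → ℝ, ∑ i, d i ^ 2 ≤ 1 → ∀ ε > 0,
        ∃ᶠ n in atTop, ∀ i, |deviation (A ω) Q k n (H i) (u i) (v i) - d i| < ε) ∧
      ∀ d : Fin r → ℝ, ∑ i, d i ^ 2 < 1 → ∀ δ > 0, ∃ ε₀ > 0, ∀ ε, 0 < ε → ε ≤ ε₀ → ∀ᶠ x : ℕ in atTop,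
        (x : ℝ) ^ (1 - ∑ i, d i ^ 2 - δ) ≤
          ({n : ℕ | n ≤ x ∧ ∀ i, |deviation (A ω) Q k n (H i) (u i) (v i) - d i| < ε}.ncard : ℝ) ∧
        ({n : ℕ | n ≤ x ∧ ∀ i, |deviation (A ω) Q k n (H i) (u i) (v i) - d i| < ε}.ncard : ℝ) ≤
          (x : ℝ) ^ (1 - ∑ i, d i ^ 2 + δ) := by
  classical
  filter_upwards [Pool.Agent.Q106.MD.pow_all hA hQ] with ω hω k hk r H u v hF
  obtain ⟨h1, h2, h3⟩ := hω k hk r H u v hF
  have hk1 : 1 ≤ k := by omega
  simp only [deviation_eq A hk1 H u v hF]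
  refine ⟨h1, h2, fun d hd δ hδ => ?_⟩
  obtain ⟨ε₀, hε₀, h4⟩ := h3 d hd δ hδ
  refine ⟨ε₀, hε₀, fun ε hε hε2 => ?_⟩
  filter_upwards [h4 ε hε hε2] with x h5
  have h6 : ({n : ℕ | n ≤ x ∧ ∀ i, |Pool.Agent.Q106.MD.dvp Q A k H u v n i ω - d i| < ε}.ncard : ℝ) =
      Pool.Agent.Q120.GM.num (range (x + 1)) (fun n => Pool.Agent.Q106.MD.near (Pool.Agent.Q106.MD.dvp Q A k H u v) n d ε) ω := by
    rw [Pool.Agent.Q120.GM.num_card]
    congr 1
    rw [← Set.ncard_coe_finset]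
    congr 1
    ext n
    rw [Finset.mem_coe, mem_filter, mem_range, Nat.lt_succ_iff]
    rfl
  rw [h6]
  exact h5

end Pool.Agent.Results.MP_d610d0_nt.UnitBallOfDeviations
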